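import Pool.Agent.N641.VB.Stm

set_option autoImplicit false
set_option linter.unusedSectionVars false

/-!
# Project VB (helper641): good types exist
-/

namespace Pool.Agent.N776.VB

open Pool.Agent.N641.VB Topology

section top

variable {M : Type} [AddCommMonoid M]

/-- the discrete topology on the types of depth `k` -/
instance instTop (k : ℕ) : TopologicalSpace (TP M k) := ⊥

instance instDisc (k : ℕ) : DiscreteTopology (TP M k) := ⟨rfl⟩

/-- cylinders are open -/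
theorem cyl_open (t : FT M) (k : ℕ) : IsOpen {s : FT M | ∀ j ≤ k, s j = t j} := by
  have h1 : {s : FT M | ∀ j ≤ k, s j = t j} =
      ⋂ j ∈ Set.Iic k, (fun s : FT M => s j) ⁻¹' {t j} := by
    ext s
    simp
  rw [h1]
  refine (Set.finite_Iic k).isOpen_biInter fun j _ => ?_
  exact (isOpen_discrete _).preimage (continuous_apply j)

theorem eval_open (t : FT M) (k : ℕ) : IsOpen {s : FT M | s k = t k} :=
  (isOpen_discrete {t k}).preimage (continuous_apply k)

/-- cylinders are a basis -/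
theorem exists_cyl {U : Set (FT M)} (hU : IsOpen U) {t : FT M} (ht : t ∈ U) :
    ∃ k, {s : FT M | ∀ j ≤ k, s j = t j} ⊆ U := by
  obtain ⟨I, u, h1, h2⟩ := isOpen_pi_iff.1 hU t ht
  refine ⟨I.sup id, fun s hs => h2 ?_⟩
  intro j hj
  have h3 : s j = t j := hs j (Finset.le_sup (f := id) hj)
  rw [h3]
  exact (h1 j hj).2

theorem rl_zero : Rl (0 : FT M) := by
  refine ⟨Bool, inferInstance, fun _ => 0, ⊥, ⟨rfl, fun _ _ _ => (add_zero (0 : M)).symm⟩, ?_⟩
  exact ft_bot ⟨rfl, fun _ _ _ => (add_zero (0 : M)).symm⟩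

/-- the monoid of the realised types -/
def RS (RADD : S_RADD) (M : Type) [AddCommMonoid M] : AddSubmonoid (FT M) where
  carrier := {t | Rl t}
  add_mem' := fun {u v} hu hv => RADD M u v hu hv
  zero_mem' := rl_zero

variable (RADD : S_RADD)

theorem image_div (t : RS RADD M) :
    Subtype.val '' {u : RS RADD M | ∃ v, u + v = t} = Dv t.1 := by
  ext x
  constructor
  · rintro ⟨u, ⟨v, hv⟩, rfl⟩
    exact ⟨u.2, v.1, v.2, congrArg Subtype.val hv⟩
  · rintro ⟨hx, v, hv, h⟩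
    exact ⟨⟨x, hx⟩, ⟨⟨v, hv⟩, Subtype.ext h⟩, rfl⟩

theorem fin_div (t : RS RADD M) :
    {u : RS RADD M | ∃ v, u + v = t}.Finite ↔ (Dv t.1).Finite := by
  rw [← image_div RADD t, Set.finite_image_iff Subtype.val_injective.injOn]

theorem inf_div (t : RS RADD M) :
    {u : RS RADD M | ∃ v, u + v = t}.Infinite ↔ (Dv t.1).Infinite :=
  not_congr (fin_div RADD t)

theorem ct_div (t : RS RADD M) :
    {u : RS RADD M | ∃ v, u + v = t}.Countable ↔ (Dv t.1).Countable := by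
  rw [← image_div RADD t]
  exact ⟨fun h => h.image _, fun h =>
    Set.countable_of_injective_of_countable_image Subtype.val_injective.injOn h⟩

end top

/-- existence of good types -/
theorem ALGF (_ : S_TRN) (RADD : S_RADD) (UP : S_UP) (REF : S_REF) (OPN : S_OPN) (ISO : S_ISO)
    (ALG1 : S_ALG1) (ALG2 : S_ALG2) : S_ALGF := by
  intro M _ _ t0 ht0 hinf hct
  have hT2 : T2Space (FT M) := inferInstance
  have hcomp : CompactSpace (FT M) := inferInstance
  have hadd : ContinuousAdd (FT M) := inferInstance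
  have hclosed : IsClosed {t : FT M | Rl t} := by
    rw [← closure_subset_iff_isClosed]
    intro t ht
    refine UP M t fun k => ?_
    obtain ⟨s, hs1, hs2⟩ := mem_closure_iff.1 ht _ (cyl_open t k) (fun _ _ => rfl)
    exact ⟨s, hs2, hs1⟩
  have hX : CompactSpace (RS RADD M) :=
    isCompact_iff_compactSpace.1 (hclosed.isCompact)
  have hXadd : ContinuousAdd (RS RADD M) := inferInstance
  -- isolated points
  have H1 : ∀ t : RS RADD M, {u : RS RADD M | ∃ v, u + v = t}.Finite → IsOpen {t} := by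
    intro t ht
    obtain ⟨k, hk⟩ := ISO M t.1 t.2 ((fin_div RADD t).1 ht)
    have h1 : ({t} : Set (RS RADD M)) =
        Subtype.val ⁻¹' {s : FT M | ∀ j ≤ k, s j = t.1 j} := by
      ext s
      constructor
      · intro h
        rw [Set.mem_singleton_iff.1 h]
        exact fun _ _ => rfl
      · intro h
        exact Subtype.ext (hk s.1 s.2 h)
    rw [h1]
    exact (cyl_open t.1 k).preimage continuous_subtype_val
  -- the addition is open
  have H2 : IsOpenMap (fun q : RS RADD M × RS RADD M => q.1 + q.2) := by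
    intro U hU
    rw [isOpen_iff_forall_mem_open]
    rintro _ ⟨⟨p, q⟩, hpq, rfl⟩
    obtain ⟨V, W, hV, hW, hpV, hqW, hVW⟩ := isOpen_prod_iff.1 hU p q hpq
    obtain ⟨V', hV', rfl⟩ := isOpen_induced_iff.1 hV
    obtain ⟨W', hW', rfl⟩ := isOpen_induced_iff.1 hW
    obtain ⟨k, hk⟩ := exists_cyl hV' hpV
    obtain ⟨l, hl⟩ := exists_cyl hW' hqW
    refine ⟨Subtype.val ⁻¹' {s : FT M | s (max k l + 1) = (p.1 + q.1) (max k l + 1)}, ?_,
      (eval_open (p.1 + q.1) _).preimage continuous_subtype_val, rfl⟩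
    intro s hs
    obtain ⟨p', q', hp', hq', h1, h2, h3⟩ := OPN M p.1 q.1 s.1 (max k l) p.2 q.2 s.2 hs
    refine ⟨(⟨p', hp'⟩, ⟨q', hq'⟩), hVW ⟨hk fun j hj => h2 j (hj.trans (le_max_left _ _)),
      hl fun j hj => h3 j (hj.trans (le_max_right _ _))⟩, Subtype.ext h1⟩
  -- refinement
  have H3 : ∀ p q u v : RS RADD M, p + q = u + v → ∃ p1 p2 q1 q2 : RS RADD M, p1 + p2 = p ∧
      q1 + q2 = q ∧ p1 + q1 = u ∧ p2 + q2 = v := by
    intro p q u v h
    obtain ⟨p1, p2, q1, q2, h1, h2, h3, h4, h5, h6, h7, h8⟩ :=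
      REF M p.1 q.1 u.1 v.1 p.2 q.2 u.2 v.2 (congrArg Subtype.val h)
    exact ⟨⟨p1, h1⟩, ⟨p2, h2⟩, ⟨q1, h3⟩, ⟨q2, h4⟩, Subtype.ext h5, Subtype.ext h6,
      Subtype.ext h7, Subtype.ext h8⟩
  obtain ⟨t1, ⟨v1, hv1⟩, hi1, hm1, hh1⟩ := ALG1 (RS RADD M) H1 ⟨t0, ht0⟩
    ((inf_div RADD ⟨t0, ht0⟩).2 hinf)
  have hc1 : {u : RS RADD M | ∃ v, u + v = t1}.Countable := by
    refine ((ct_div RADD ⟨t0, ht0⟩).2 hct).mono ?_
    rintro u ⟨v, hv⟩
    exact ⟨v + v1, by rw [← add_assoc, hv, hv1]⟩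
  obtain ⟨e, ⟨v2, hv2⟩, hid, hie, hgrp, hacc⟩ := ALG2 (RS RADD M) H1 H2 H3 t1 hi1 hc1 hm1 hh1
  have hce : {u : RS RADD M | ∃ v, u + v = e}.Countable := by
    refine hc1.mono ?_
    rintro u ⟨v, hv⟩
    exact ⟨v + v2, by rw [← add_assoc, hv, hv2]⟩
  have hlift : ∀ u ∈ Dv e.1, ∃ u' : RS RADD M, u'.1 = u ∧ ∃ v, u' + v = e := by
    rintro u ⟨hu, v, hv, h⟩
    exact ⟨⟨u, hu⟩, rfl, ⟨v, hv⟩, Subtype.ext h⟩
  refine ⟨e.1, ⟨e.2, v2.1 + v1.1, RADD M _ _ v2.2 v1.2, ?_⟩, ?_⟩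
  · have h1 := congrArg Subtype.val hv1
    have h2 := congrArg Subtype.val hv2
    change t1.1 + v1.1 = t0 at h1
    change e.1 + v2.1 = t1.1 at h2
    rw [← add_assoc, h2, h1]
  · refine ⟨e.2, congrArg Subtype.val hid, (inf_div RADD e).1 hie, (ct_div RADD e).1 hce, ?_, ?_⟩
    · intro u hu hui
      obtain ⟨u', rfl, hu'⟩ := hlift u hu
      obtain ⟨h1, w, ⟨v, hv⟩, h3, h4⟩ := hgrp u' hu' ((inf_div RADD u').2 hui)
      exact ⟨congrArg Subtype.val h1, w.1, ⟨w.2, v.1, v.2, congrArg Subtype.val hv⟩,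
        (inf_div RADD w).1 h3, congrArg Subtype.val h4⟩
    · intro u hu hui k
      obtain ⟨u', rfl, hu'⟩ := hlift u hu
      have h1 := hacc u' hu' ((inf_div RADD u').2 hui)
      obtain ⟨f, hf1, ⟨v, hv⟩, hf3, hf4⟩ := mem_closure_iff.1 h1 _
        ((cyl_open u'.1 k).preimage continuous_subtype_val) (fun _ _ => rfl)
      exact ⟨f.1, ⟨f.2, v.1, v.2, congrArg Subtype.val hv⟩, (fin_div RADD f).1 hf3,
        congrArg Subtype.val hf4, hf1⟩

end Pool.Agent.N776.VB
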