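import Pool.Agent.N641.VB.Stm6

/-!
Project VB, leaf TM6 (helper776): translation of the formulas of the interpreted structure
(interpretations modulo a definable equivalence relation). Adapted from `Pool/Agent/N887/VB/TM3.lean`.
-/

set_option autoImplicit false
set_option linter.unusedSectionVars false
set_option linter.unusedVariables false

namespace Pool.Agent.N776.VB

open Pool.Agent.N641.VB FirstOrder FirstOrder.Language

namespace TM6Aux

variable {L : FirstOrder.Language.{0, 0}} {M : Type}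

/-- the representing tuples of the interpreted structure -/
abbrev UU (σ : Sc6 L M) {A : Type} [BooleanAlgebra A] (mu : A → M) (q : Fin σ.n' → A) : Type :=
  {x : Fin σ.r → A // @Formula.Realize (LM M) A (str (· ≤ ·) mu) _ σ.δ (Sum.elim q x)}

/-- uniform predicates on the interpreted structures -/
def UP (σ : Sc6 L M) (γ : Type) : Type 1 :=
  ∀ (A : Type) [BooleanAlgebra A] (mu : A → M) (q : Fin σ.n' → A) (U : Type)
    (S : L.Structure U) (g : (Fin σ.r → A) → U), (γ → UU σ mu q) → Prop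

/-- the assignment given by a tuple of representing tuples -/
abbrev asg {σ : Sc6 L M} {A : Type} [BooleanAlgebra A] {mu : A → M} (q : Fin σ.n' → A)
    {γ : Type} (v : γ → UU σ mu q) : Fin σ.n' ⊕ γ × Fin σ.r → A :=
  Sum.elim q fun x => (v x.1).1 x.2

/-- the elements of the structure represented by a tuple of representing tuples -/
abbrev gv {σ : Sc6 L M} {A : Type} [BooleanAlgebra A] {mu : A → M} {q : Fin σ.n' → A}
    {U : Type} (g : (Fin σ.r → A) → U) {γ : Type} (v : γ → UU σ mu q) : γ → U :=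
  fun i => g (v i).1

/-- definable uniform predicates -/
def Dfn (σ : Sc6 L M) {γ : Type} (D : UP σ γ) : Prop :=
  ∃ θ : (LM M).Formula (Fin σ.n' ⊕ γ × Fin σ.r), ∀ (A : Type) [BooleanAlgebra A] (mu : A → M)
    (q : Fin σ.n' → A) (U : Type) (S : L.Structure U) (g : (Fin σ.r → A) → U),
    In6 σ mu q S g → ∀ v : γ → UU σ mu q,
    D A mu q U S g v ↔ @Formula.Realize (LM M) A (str (· ≤ ·) mu) _ θ (asg q v)

variable {σ : Sc6 L M} {γ γ' : Type}

theorem dfn_congr {D D' : UP σ γ} (h : ∀ (A : Type) [BooleanAlgebra A] (mu : A → M)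
    (q : Fin σ.n' → A) (U : Type) (S : L.Structure U) (g : (Fin σ.r → A) → U),
    In6 σ mu q S g → ∀ v : γ → UU σ mu q,
    D A mu q U S g v ↔ D' A mu q U S g v) (hD : Dfn σ D) : Dfn σ D' := by
  obtain ⟨θ, hθ⟩ := hD
  exact ⟨θ, fun A _ mu q U S g hF v =>
    (h A mu q U S g hF v).symm.trans (hθ A mu q U S g hF v)⟩

theorem dfn_false : Dfn σ (γ := γ) (fun _ _ _ _ _ _ _ _ => False) := by
  refine ⟨⊥, fun A _ mu q U S g hF v => ?_⟩
  rw [@Formula.realize_bot]

theorem dfn_imp {D D' : UP σ γ} (h : Dfn σ D) (h' : Dfn σ D') :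
    Dfn σ (γ := γ) (fun A _ mu q U S g v => D A mu q U S g v → D' A mu q U S g v) := by
  obtain ⟨θ, hθ⟩ := h
  obtain ⟨θ', hθ'⟩ := h'
  refine ⟨θ.imp θ', fun A _ mu q U S g hF v => ?_⟩
  rw [@Formula.realize_imp]
  exact imp_congr (hθ A mu q U S g hF v) (hθ' A mu q U S g hF v)

theorem dfn_not {D : UP σ γ} (h : Dfn σ D) :
    Dfn σ (γ := γ) (fun A _ mu q U S g v => ¬ D A mu q U S g v) :=
  dfn_imp h dfn_false

theorem dfn_and {D D' : UP σ γ} (h : Dfn σ D) (h' : Dfn σ D') :
    Dfn σ (γ := γ) (fun A _ mu q U S g v => D A mu q U S g v ∧ D' A mu q U S g v) := by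
  refine dfn_congr (fun A _ mu q U S g hF v => ?_) (dfn_not (dfn_imp h (dfn_not h')))
  tauto

theorem dfn_comp (k : γ → γ') {D : UP σ γ} (h : Dfn σ D) :
    Dfn σ (γ := γ') (fun A _ mu q U S g v => D A mu q U S g (v ∘ k)) := by
  obtain ⟨θ, hθ⟩ := h
  refine ⟨θ.relabel (Sum.map id (Prod.map k id)), fun A _ mu q U S g hF v => ?_⟩
  rw [@Formula.realize_relabel]
  refine (hθ A mu q U S g hF (v ∘ k)).trans (Iff.of_eq (congrArg _ ?_))
  funext x
  rcases x with x | x <;> rfl

theorem dfn_iall {ι : Type} [Finite ι] {D : ι → UP σ γ} (h : ∀ i, Dfn σ (D i)) :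
    Dfn σ (γ := γ) (fun A _ mu q U S g v => ∀ i, D i A mu q U S g v) := by
  choose θ hθ using h
  refine ⟨Formula.iInf θ, fun A _ mu q U S g hF v => ?_⟩
  rw [@Formula.realize_iInf]
  exact forall_congr' fun i => hθ i A mu q U S g hF v

theorem dfn_allU {ι : Type} [Finite ι] {D : UP σ (γ ⊕ ι)} (h : Dfn σ D) :
    Dfn σ (γ := γ) (fun A _ mu q U S g v =>
      ∀ w : ι → UU σ mu q, D A mu q U S g (Sum.elim v w)) := by
  obtain ⟨θ, hθ⟩ := h
  let g1 : ι → Fin σ.n' ⊕ Fin σ.r → (Fin σ.n' ⊕ γ × Fin σ.r) ⊕ (ι × Fin σ.r) := fun a =>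
    Sum.elim (fun b => Sum.inl (Sum.inl b)) (fun c => Sum.inr (a, c))
  let g2 : Fin σ.n' ⊕ (γ ⊕ ι) × Fin σ.r → (Fin σ.n' ⊕ γ × Fin σ.r) ⊕ (ι × Fin σ.r) :=
    Sum.elim (fun b => Sum.inl (Sum.inl b)) (fun x => Sum.elim
      (fun a => Sum.inl (Sum.inr (a, x.2))) (fun i => Sum.inr (i, x.2)) x.1)
  refine ⟨Formula.iAlls (ι × Fin σ.r) ((Formula.iInf fun a : ι => σ.δ.relabel (g1 a)).imp
    (θ.relabel g2)), fun A _ mu q U S g hF v => ?_⟩
  have e1 : ∀ (i : ι × Fin σ.r → A) (a : ι), (Sum.elim (asg q v) i) ∘ g1 a =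
      Sum.elim q (fun c => i (a, c)) := by
    intro i a
    funext x
    rcases x with x | x <;> rfl
  have e2 : ∀ (w : ι → UU σ mu q), (Sum.elim (asg q v) (fun x => (w x.1).1 x.2)) ∘ g2 =
      asg q (Sum.elim v w) := by
    intro w
    funext x
    rcases x with x | ⟨x | x, c⟩ <;> rfl
  rw [@Formula.realize_iAlls]
  constructor
  · intro h1 i
    rw [@Formula.realize_imp, @Formula.realize_iInf]
    intro h2
    have h3 : ∀ a, @Formula.Realize (LM M) A (str (· ≤ ·) mu) _ σ.δ
        (Sum.elim q fun c => i (a, c)) := by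
      intro a
      have h4 := h2 a
      rw [@Formula.realize_relabel] at h4
      rw [← e1 i a]
      exact h4
    have h5 := h1 (fun a => ⟨fun c => i (a, c), h3 a⟩)
    rw [hθ A mu q U S g hF, ← e2] at h5
    rw [@Formula.realize_relabel]
    exact h5
  · intro h1 w
    have h2 := h1 (fun x => (w x.1).1 x.2)
    rw [@Formula.realize_imp, @Formula.realize_iInf] at h2
    rw [hθ A mu q U S g hF, ← e2]
    have h3 := h2 (fun a => by
      rw [@Formula.realize_relabel]
      have h4 := (w a).2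
      have h5 := e1 (fun x => (w x.1).1 x.2) a
      rw [← h5] at h4
      exact h4)
    rw [@Formula.realize_relabel] at h3
    exact h3

theorem dfn_exU {ι : Type} [Finite ι] {D : UP σ (γ ⊕ ι)} (h : Dfn σ D) :
    Dfn σ (γ := γ) (fun A _ mu q U S g v =>
      ∃ w : ι → UU σ mu q, D A mu q U S g (Sum.elim v w)) := by
  refine dfn_congr (fun A _ mu q U S g hF v => ?_) (dfn_not (dfn_allU (dfn_not h)))
  push Not
  rfl

theorem dfn_eq (a b : γ) : Dfn σ (γ := γ) (fun A _ mu q U S g v => g (v a).1 = g (v b).1) := by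
  refine ⟨σ.ε.relabel (Sum.map id (Prod.map (![a, b] : Fin 2 → γ) id)),
    fun A _ mu q U S g hF v => ?_⟩
  rw [@Formula.realize_relabel]
  have h := hF.eq (fun x => (v ((![a, b] : Fin 2 → γ) x.1)).1 x.2)
    (fun i => (v ((![a, b] : Fin 2 → γ) i)).2)
  refine h.symm.trans (Iff.of_eq (congrArg _ ?_))
  funext x
  rcases x with x | x <;> rfl

theorem dfn_rel {l : ℕ} (R : L.Relations l) (a : Fin l → γ) :
    Dfn σ (γ := γ) (fun A _ mu q U S g v => @Structure.RelMap L U S l R (gv g (v ∘ a))) := by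
  refine ⟨(σ.ρ l R).relabel (Sum.map id (Prod.map a id)), fun A _ mu q U S g hF v => ?_⟩
  rw [@Formula.realize_relabel]
  have h := hF.rel l R (fun x => (v (a x.1)).1 x.2) (fun i => (v (a i)).2)
  refine h.symm.trans (Iff.of_eq (congrArg _ ?_))
  funext x
  rcases x with x | x <;> rfl

theorem dfn_fun {l : ℕ} (F : L.Functions l) (a : Fin l → γ) (b : γ) :
    Dfn σ (γ := γ) (fun A _ mu q U S g v =>
      @Structure.funMap L U S l F (gv g (v ∘ a)) = g (v b).1) := by
  refine ⟨(σ.γ l F).relabel (Sum.map id (Prod.map (Fin.snoc a b : Fin (l + 1) → γ) id)),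
    fun A _ mu q U S g hF v => ?_⟩
  rw [@Formula.realize_relabel]
  have h := hF.fun_ l F (fun x => (v ((Fin.snoc a b : Fin (l + 1) → γ) x.1)).1 x.2)
    (fun i => (v ((Fin.snoc a b : Fin (l + 1) → γ) i)).2)
  have e1 : (fun i : Fin l => g fun j =>
      (v ((Fin.snoc a b : Fin (l + 1) → γ) i.castSucc)).1 j) = gv g (v ∘ a) := by
    funext i
    rw [Fin.snoc_castSucc]
    rfl
  have e2 : (fun j => (v ((Fin.snoc a b : Fin (l + 1) → γ) (Fin.last l))).1 j) = (v b).1 := by
    rw [Fin.snoc_last]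
  have e3 : (@Structure.funMap L U S l F (gv g (v ∘ a)) = g (v b).1) ↔
      (@Structure.funMap L U S l F (fun i : Fin l => g fun j =>
        (v ((Fin.snoc a b : Fin (l + 1) → γ) i.castSucc)).1 j) =
        g (fun j => (v ((Fin.snoc a b : Fin (l + 1) → γ) (Fin.last l))).1 j)) := by
    rw [e1, e2]
  refine e3.trans (h.symm.trans (Iff.of_eq (congrArg _ ?_)))
  funext x
  rcases x with x | x <;> rfl

theorem dfn_term : ∀ (t : L.Term γ),
    Dfn σ (γ := γ ⊕ Unit) (fun A _ mu q U S g v =>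
      @Term.realize L U S _ (gv g (v ∘ Sum.inl)) t = g (v (Sum.inr ())).1)
  | Term.var a => by
    refine dfn_congr (fun A _ mu q U S g hF v => ?_) (dfn_eq (Sum.inl a) (Sum.inr ()))
    rfl
  | Term.func (l := l) F ts => by
    have h1 : ∀ i, Dfn σ (γ := (γ ⊕ Unit) ⊕ Fin l) (fun A _ mu q U S g v =>
        @Term.realize L U S _ (gv g (v ∘ Sum.inl ∘ Sum.inl)) (ts i) = g (v (Sum.inr i)).1) := by
      intro i
      exact dfn_comp (Sum.elim (fun a => Sum.inl (Sum.inl a)) (fun _ => Sum.inr i))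
        (dfn_term (ts i))
    have h2 := dfn_exU (dfn_and (dfn_iall h1) (dfn_fun F (fun i : Fin l =>
      (Sum.inr i : (γ ⊕ Unit) ⊕ Fin l)) (Sum.inl (Sum.inr ()))))
    refine dfn_congr (fun A _ mu q U S g hF v => ?_) h2
    rw [@Term.realize_func]
    constructor
    · rintro ⟨w, h3, h4⟩
      have h5 : (fun i => @Term.realize L U S _ (gv g (v ∘ Sum.inl)) (ts i)) = gv g w :=
        funext h3
      rw [h5]
      exact h4
    · intro h3
      have h4 : ∀ i : Fin l, ∃ x : UU σ mu q,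
          g x.1 = @Term.realize L U S _ (gv g (v ∘ Sum.inl)) (ts i) := by
        intro i
        obtain ⟨x, hx1, hx2⟩ := hF.onto (@Term.realize L U S _ (gv g (v ∘ Sum.inl)) (ts i))
        exact ⟨⟨x, hx1⟩, hx2⟩
      choose w hw using h4
      refine ⟨w, fun i => (hw i).symm, ?_⟩
      have h5 : (fun i => @Term.realize L U S _ (gv g (v ∘ Sum.inl)) (ts i)) = gv g w :=
        funext fun i => (hw i).symm
      rw [h5] at h3
      exact h3

theorem dfn_bdf {α : Type} {j : ℕ} (χ : L.BoundedFormula α j) :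
    Dfn σ (γ := α ⊕ Fin j) (fun A _ mu q U S g v =>
      @BoundedFormula.Realize L U S _ _ χ (gv g (v ∘ Sum.inl)) (gv g (v ∘ Sum.inr))) := by
  induction χ with
  | falsum => exact dfn_false
  | equal t1 t2 =>
    refine dfn_congr (fun A _ mu q U S g hF v => ?_)
      (dfn_exU (ι := Unit) (dfn_and (dfn_term t1) (dfn_term t2)))
    have e : gv g v = Sum.elim (gv g (v ∘ Sum.inl)) (gv g (v ∘ Sum.inr)) := by
      funext x
      rcases x with x | x <;> rfl
    constructor
    · rintro ⟨w, h1, h2⟩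
      have h3 := h1.trans h2.symm
      change @Term.realize L U S _ (gv g v) t1 = @Term.realize L U S _ (gv g v) t2 at h3
      rw [e] at h3
      exact h3
    · intro h1
      change @Term.realize L U S _ (Sum.elim (gv g (v ∘ Sum.inl)) (gv g (v ∘ Sum.inr))) t1 =
        @Term.realize L U S _ (Sum.elim (gv g (v ∘ Sum.inl)) (gv g (v ∘ Sum.inr))) t2 at h1
      rw [← e] at h1
      obtain ⟨x, hx1, hx2⟩ := hF.onto (@Term.realize L U S _ (gv g v) t1)
      refine ⟨fun _ => ⟨x, hx1⟩, ?_, ?_⟩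
      · exact hx2.symm
      · exact h1.symm.trans hx2.symm
  | rel R ts =>
    rename_i l
    have h1 : ∀ i, Dfn σ (γ := (α ⊕ Fin _) ⊕ Fin _) (fun A _ mu q U S g v =>
        @Term.realize L U S _ (gv g (v ∘ Sum.inl)) (ts i) = g (v (Sum.inr i)).1) := by
      intro i
      exact dfn_comp (Sum.elim (fun a => Sum.inl a) (fun _ => Sum.inr i))
        (dfn_term (ts i))
    have h2 := dfn_exU (dfn_and (dfn_iall h1) (dfn_rel R (fun i =>
      (Sum.inr i : (α ⊕ Fin _) ⊕ Fin _))))
    refine dfn_congr (fun A _ mu q U S g hF v => ?_) h2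
    have e : gv g v = Sum.elim (gv g (v ∘ Sum.inl)) (gv g (v ∘ Sum.inr)) := by
      funext x
      rcases x with x | x <;> rfl
    constructor
    · rintro ⟨w, h3, h4⟩
      have h5 : (fun i => @Term.realize L U S _
        (Sum.elim (gv g (v ∘ Sum.inl)) (gv g (v ∘ Sum.inr))) (ts i)) = gv g w := by
        rw [← e]
        exact funext h3
      change @Structure.RelMap L U S _ R (fun i => @Term.realize L U S _
        (Sum.elim (gv g (v ∘ Sum.inl)) (gv g (v ∘ Sum.inr))) (ts i))
      rw [h5]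
      exact h4
    · intro h3
      change @Structure.RelMap L U S _ R (fun i => @Term.realize L U S _
        (Sum.elim (gv g (v ∘ Sum.inl)) (gv g (v ∘ Sum.inr))) (ts i)) at h3
      rw [← e] at h3
      have h4 : ∀ i, ∃ x : UU σ mu q, g x.1 = @Term.realize L U S _ (gv g v) (ts i) := by
        intro i
        obtain ⟨x, hx1, hx2⟩ := hF.onto (@Term.realize L U S _ (gv g v) (ts i))
        exact ⟨⟨x, hx1⟩, hx2⟩
      choose w hw using h4
      refine ⟨w, fun i => (hw i).symm, ?_⟩
      have h5 : (fun i => @Term.realize L U S _ (gv g v) (ts i)) = gv g w :=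
        funext fun i => (hw i).symm
      rw [h5] at h3
      exact h3
  | imp f1 f2 ih1 ih2 => exact dfn_imp ih1 ih2
  | all f ih =>
    rename_i m
    have h1 := dfn_allU (ι := Unit) (dfn_comp (γ' := (α ⊕ Fin m) ⊕ Unit)
      (Sum.elim (fun a => Sum.inl (Sum.inl a))
        (Fin.snoc (fun i => Sum.inl (Sum.inr i)) (Sum.inr ()) :
          Fin (m + 1) → (α ⊕ Fin m) ⊕ Unit)) ih)
    refine dfn_congr (fun A _ mu q U S g hF v => ?_) h1
    rw [@BoundedFormula.realize_all]
    have e : ∀ w : Unit → UU σ mu q,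
        gv g ((Sum.elim v w ∘ Sum.elim (fun a => Sum.inl (Sum.inl a))
        (Fin.snoc (fun i => Sum.inl (Sum.inr i)) (Sum.inr ()) :
          Fin (m + 1) → (α ⊕ Fin m) ⊕ Unit)) ∘ Sum.inr) =
        (Fin.snoc (gv g (v ∘ Sum.inr)) (g (w ()).1) : Fin (m + 1) → U) := by
      intro w
      funext i
      refine Fin.lastCases ?_ (fun i => ?_) i
      · simp [gv]
      · simp [gv]
    constructor
    · intro h2 x
      obtain ⟨y, hy1, hy2⟩ := hF.onto x
      have h3 := h2 (fun _ => ⟨y, hy1⟩)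
      rw [e] at h3
      rw [hy2] at h3
      exact h3
    · intro h2 w
      rw [e]
      exact h2 (g (w ()).1)

end TM6Aux

open TM6Aux in
/-- TM6: formulas of the interpreted structure are translated -/
theorem TM6 : S_TM6 := by
  intro L M σ α _ χ
  obtain ⟨θ, hθ⟩ := dfn_comp (σ := σ) (γ' := α) (Sum.elim id Fin.elim0) (dfn_bdf χ)
  refine ⟨θ, fun A _ mu q U S g hF v hv => ?_⟩
  have h := hθ A mu q U S g hF (fun i => ⟨fun j => v (i, j), hv i⟩)
  refine Iff.trans h.symm ?_
  change @BoundedFormula.Realize L U S _ _ χ (fun i => g fun j => v (i, j)) _ ↔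
    @BoundedFormula.Realize L U S _ _ χ (fun i => g fun j => v (i, j)) default
  exact Iff.of_eq (congrArg (@BoundedFormula.Realize L U S _ _ χ
    (fun i => g fun j => v (i, j))) (Subsingleton.elim _ _))

end Pool.Agent.N776.VB
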